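import Pool.Agent.CubicFreeSet.Final

set_option autoImplicit false

/-!
MP_ca05b3_co, Q1 (answer: yes, with `c = 1/22`, for all connected cubic planar graphs).

In a connected cubic planar graph `G` every vertex set `X` contains a free set with at least
`|X| / 22` elements.
-/

namespace Pool.Agent.Results.MP_ca05b3_co.FreeSubset

open Pool.Agent.CubicFreeSet

universe u

lemma planarRot_of_isPlanar {V : Type u} [Fintype V] (G : SimpleGraph V)
    [DecidableRel G.Adj] (hdeg : ∀ v, ∃ w, G.Adj v w) [Nonempty V]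
    (h : IsPlanar G) : PlanarRot G := by
  classical
  rcases h with ⟨φ, hφ⟩ | ⟨σ, h1, h2, h3⟩
  · exact hφ.planarRot hdeg
  · refine ⟨σ, h1, h2, ?_⟩
    have h4 := G.dart_card_eq_twice_card_edges
    have h5 : Nat.card G.edgeSet = G.edgeFinset.card := by
      rw [Nat.card_eq_fintype_card, SimpleGraph.edgeFinset_card]
    have h6 : ncyc (σ * rev G) =
        Nat.card (Quotient (Equiv.Perm.SameCycle.setoid (σ * rev G))) := rfl
    rw [Nat.card_eq_fintype_card, Nat.card_eq_fintype_card, h4, h6]
    omega

/-- Every vertex set `X` of a connected cubic planar graph `G` contains a free set of `G` with at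
least `|X| / 22` vertices. -/
theorem result {V : Type u} [Fintype V] (G : SimpleGraph V) [DecidableRel G.Adj]
    (hconn : G.Connected) (hcubic : G.IsRegularOfDegree 3) (hplanar : IsPlanar G)
    (X : Finset V) :
    ∃ S : Finset V, S ⊆ X ∧ IsFree G S ∧ (1 / 22 : ℝ) * (X.card : ℝ) ≤ (S.card : ℝ) := by
  classical
  have h3 : ∀ v, (G.neighborFinset v).card = 3 := fun v => hcubic v
  have hnb : ∀ v w, w ∈ G.neighborFinset v ↔ G.Adj v w := fun v w => by simp
  have hdeg : ∀ v, ∃ w, G.Adj v w := by
    intro v
    have : (G.neighborFinset v).Nonempty := by rw [← Finset.card_pos, h3]; omega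
    obtain ⟨w, hw⟩ := this
    exact ⟨w, (hnb v w).1 hw⟩
  have : Nonempty V := hconn.nonempty
  obtain ⟨S, h1, h2, h4⟩ := exists_free (fun v => G.neighborFinset v) hnb h3 hconn
    (planarRot_of_isPlanar G hdeg hplanar) X
  refine ⟨S, h1, h2, ?_⟩
  have h5 : (X.card : ℝ) ≤ 22 * (S.card : ℝ) := by exact_mod_cast h4
  linarith

end Pool.Agent.Results.MP_ca05b3_co.FreeSubset
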